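import Pool.Agent.ISO.StmtsZ

/-!
# Row ZPT of squad ISO (MP_b48657_ag): jets at the point `p` and jets of the model
-/

set_option autoImplicit false

namespace Pool.Agent.ISO.Z.H2

open PowerSeries Finset Pool.Agent.Helper6_Mono Pool.Agent.Helper32_OMP Pool.Agent.ISO

section series

variable {k : Type} [Field k] {S : Type} [CommRing S] [Algebra k S]

/-- agreement up to degree `m` -/
def Cg (m : ℕ) (s s' : S⟦X⟧) : Prop := ∀ j ≤ m, coeff j s = coeff j s'

theorem cg_iff {m : ℕ} {s s' : S⟦X⟧} : Cg m s s' ↔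
    Ideal.Quotient.mk (Ideal.span {(X : S⟦X⟧) ^ (m + 1)}) s =
      Ideal.Quotient.mk (Ideal.span {(X : S⟦X⟧) ^ (m + 1)}) s' := by
  rw [Ideal.Quotient.eq, Ideal.mem_span_singleton, X_pow_dvd_iff]
  constructor
  · intro h j hj
    rw [map_sub, h j (by omega), sub_self]
  · intro h j hj
    have h1 := h j (by omega)
    rwa [map_sub, sub_eq_zero] at h1

theorem Cg.symm {m : ℕ} {s s' : S⟦X⟧} (h : Cg m s s') : Cg m s' s := fun j hj => (h j hj).symm

theorem Cg.trans {m : ℕ} {s s' s'' : S⟦X⟧} (h : Cg m s s') (h' : Cg m s' s'') : Cg m s s'' :=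
  fun j hj => (h j hj).trans (h' j hj)

theorem cg_aeval {m : ℕ} {σ : Type} {γ γ' : σ → S⟦X⟧} (h : ∀ l, Cg m (γ l) (γ' l))
    (P : MvPolynomial σ k) : Cg m (MvPolynomial.aeval γ P) (MvPolynomial.aeval γ' P) := by
  rw [cg_iff]
  have e : ∀ γ : σ → S⟦X⟧,
      Ideal.Quotient.mk (Ideal.span {(X : S⟦X⟧) ^ (m + 1)}) (MvPolynomial.aeval γ P) =
        MvPolynomial.aeval (fun l =>
          Ideal.Quotient.mkₐ k (Ideal.span {(X : S⟦X⟧) ^ (m + 1)}) (γ l)) P := fun γ =>
    MvPolynomial.comp_aeval_apply γ (Ideal.Quotient.mkₐ k (Ideal.span {(X : S⟦X⟧) ^ (m + 1)})) P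
  rw [e, e]
  congr 2
  funext l
  exact cg_iff.1 (h l)

theorem cg_mul {m : ℕ} {r s s' : S⟦X⟧} (h : Cg m s s') : Cg m (r * s) (r * s') := by
  rw [cg_iff] at h ⊢
  rw [map_mul, map_mul, h]

theorem cg_mul_iff {m : ℕ} {r s s' : S⟦X⟧} (hr : coeff 0 r = 1) :
    Cg m (r * s) (r * s') ↔ Cg m s s' := by
  refine ⟨fun h => ?_, cg_mul⟩
  have hu : IsUnit r := by
    rw [PowerSeries.isUnit_iff_constantCoeff, ← coeff_zero_eq_constantCoeff_apply, hr]
    exact isUnit_one
  obtain ⟨u, hu⟩ := hu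
  have h1 := cg_mul (r := (↑u⁻¹ : S⟦X⟧)) h
  rw [← hu, ← mul_assoc, ← mul_assoc, Units.inv_mul, one_mul, one_mul] at h1
  exact h1

theorem cg_X {m : ℕ} {r : S⟦X⟧} (hr : coeff 0 r = 1) : Cg m (r * X ^ m) (X ^ m) := by
  intro j hj
  rw [coeff_mul_X_pow', coeff_X_pow]
  rcases eq_or_ne j m with h | h
  · subst h
    rw [if_pos le_rfl, if_pos rfl, Nat.sub_self, hr]
  · rw [if_neg (by omega), if_neg h]

/-- the terms `1..m` -/
noncomputable def tr (m : ℕ) (s : S⟦X⟧) : S⟦X⟧ :=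
  PowerSeries.mk fun j => if 1 ≤ j ∧ j ≤ m then coeff j s else 0

theorem coeff_zero_aeval {σ : Type} (δ : σ → S⟦X⟧) (h : ∀ l, coeff 0 (δ l) = 0)
    (P : MvPolynomial σ k) :
    coeff 0 (MvPolynomial.aeval δ P) = algebraMap k S (MvPolynomial.constantCoeff P) := by
  have h1 : Cg 0 (MvPolynomial.aeval δ P) (MvPolynomial.aeval (fun _ : σ => (0 : S⟦X⟧)) P) := by
    refine cg_aeval (fun l j hj => ?_) P
    have hj0 : j = 0 := by omega
    rw [hj0, h l, map_zero]
  rw [h1 0 le_rfl]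
  have e : MvPolynomial.aeval (fun _ : σ => (0 : S⟦X⟧)) P =
      C (algebraMap k S (MvPolynomial.constantCoeff P)) := by
    have e1 : MvPolynomial.aeval (fun _ : σ => (0 : S⟦X⟧)) P =
        algebraMap k S⟦X⟧ (MvPolynomial.constantCoeff P) := by
      have := MvPolynomial.aeval_zero' (R := k) (S₁ := S⟦X⟧) (σ := σ) P
      exact this
    rw [e1, PowerSeries.algebraMap_apply]
  rw [e]
  simp

theorem tr_cg {m : ℕ} {σ : Type} {δ : σ → S⟦X⟧} (h : ∀ l, coeff 0 (δ l) = 0)
    (P : MvPolynomial σ k) :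
    Cg m (C (algebraMap k S (MvPolynomial.constantCoeff P)) + tr m (MvPolynomial.aeval δ P))
      (MvPolynomial.aeval δ P) := by
  intro j hj
  rw [map_add, tr, coeff_mk, coeff_C]
  rcases Nat.eq_zero_or_pos j with h0 | h0
  · subst h0
    rw [if_pos rfl, if_neg (by omega), add_zero, coeff_zero_aeval δ h]
  · rw [if_neg (by omega), if_pos ⟨h0, hj⟩, zero_add]

end series

section jets

variable {k : Type} [Field k] {σ ι : Type} [Fintype ι]

theorem fser_eq (f : ι → MvPolynomial σ k) (a : ι → ℕ) (c : k) (m : ℕ) (hm : m ≠ 0) {S : Type}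
    [CommRing S] [Algebra k S] (γ : σ → S⟦X⟧) :
    (lp0 f a c m hm).fser γ = MvPolynomial.aeval γ (MvPolynomial.C c * ∏ i, f i ^ a i) := by
  rw [map_mul, map_prod, MvPolynomial.aeval_C]
  show C (algebraMap k S c) * ∏ i, evt (MvPolynomial.rename some (f i)) γ ^ a i = _
  have h1 : ∀ i, evt (MvPolynomial.rename some (f i)) γ = MvPolynomial.aeval γ (f i) := by
    intro i
    rw [evt, MvPolynomial.aeval_rename]
    rfl
  rw [Finset.prod_congr rfl fun i _ => by rw [h1 i, ← map_pow], PowerSeries.algebraMap_apply]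

/-- the equation for the jets -/
theorem eqn_iff (m : ℕ) {S : Type} [CommRing S] (s : S⟦X⟧) :
    (∀ j : Fin (m + 1), coeff (j : ℕ) s - (if (j : ℕ) = m then (1 : S) else 0) = 0) ↔
      Cg m s (X ^ m) := by
  constructor
  · intro h j hj
    have h1 := h ⟨j, by omega⟩
    rw [sub_eq_zero] at h1
    rw [coeff_X_pow]
    exact h1
  · intro h j
    rw [sub_eq_zero, h j (by have := j.2; omega), coeff_X_pow]

/-- the two equations correspond -/
theorem corr (h1 : ZcgStmt) {F F1 u : MvPolynomial σ k} {ψ : σ → MvPolynomial σ k} {p : σ → k}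
    {m : ℕ} (hψ : ∀ l, MvPolynomial.constantCoeff (ψ l) = p l)
    (hu : MvPolynomial.constantCoeff u = 1)
    (hF : u * MvPolynomial.aeval ψ F - F1 ∈ Mx k σ (m + 1)) {S : Type} [CommRing S] [Algebra k S]
    {δ γ : σ → S⟦X⟧} (hδ : ∀ l, coeff 0 (δ l) = 0)
    (hγ : ∀ l, Cg m (γ l) (MvPolynomial.aeval δ (ψ l))) :
    Cg m (MvPolynomial.aeval γ F) (X ^ m) ↔ Cg m (MvPolynomial.aeval δ F1) (X ^ m) := by
  have h2 : Cg m (MvPolynomial.aeval γ F) (MvPolynomial.aeval δ (MvPolynomial.aeval ψ F)) := by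
    have h3 := cg_aeval hγ F
    have e : MvPolynomial.aeval δ (MvPolynomial.aeval ψ F) =
        MvPolynomial.aeval (fun l => MvPolynomial.aeval δ (ψ l)) F :=
      MvPolynomial.comp_aeval_apply ψ (MvPolynomial.aeval δ) F
    rw [e]
    exact h3
  have hr : coeff 0 (MvPolynomial.aeval δ u) = 1 := by
    rw [coeff_zero_aeval δ hδ, hu, map_one]
  have h4 : Cg m (MvPolynomial.aeval δ u * MvPolynomial.aeval δ (MvPolynomial.aeval ψ F))
      (MvPolynomial.aeval δ F1) := by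
    intro j hj
    have h5 := h1 k σ S (u * MvPolynomial.aeval ψ F - F1) m hF δ hδ j hj
    rw [map_sub, map_sub, sub_eq_zero, map_mul] at h5
    exact h5
  constructor
  · intro h
    have h5 : Cg m (MvPolynomial.aeval δ (MvPolynomial.aeval ψ F)) (X ^ m) := h2.symm.trans h
    exact (h4.symm.trans (cg_mul h5)).trans (cg_X hr)
  · intro h
    refine h2.trans ((cg_mul_iff hr).1 ?_)
    exact (h4.trans h).trans (cg_X hr).symm

theorem tr_tw {ω : QZ} {m : ℕ} {S S' : Type} [CommRing S] [Algebra k S] [CommRing S']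
    [Algebra k S'] (φ : S →ₐ[k] S') (c : Chr QZ S') (δ : σ → S⟦X⟧) (P : MvPolynomial σ k) :
    tr m (MvPolynomial.aeval (fun l => C (chr c (0 : QZ)) * twS ω φ c (δ l)) P) =
      C (chr c (0 : QZ)) * twS ω φ c (tr m (MvPolynomial.aeval δ P)) := by
  rw [chr_zero, map_one, one_mul]
  have e : MvPolynomial.aeval (fun l => (1 : S'⟦X⟧) * twS ω φ c (δ l)) P =
      twS ω φ c (MvPolynomial.aeval δ P) := by
    simp only [one_mul]
    exact (MvPolynomial.comp_aeval_apply δ (twS ω φ c) P).symm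
  rw [e]
  ext j
  rw [tr, coeff_mk, coeff_twS, coeff_twS, tr, coeff_mk]
  split_ifs with h
  · rfl
  · rw [map_zero, mul_zero]

theorem tr_coeff {m : ℕ} {S : Type} [CommRing S] {s : S⟦X⟧} {l : σ} {j : ℕ}
    (h : (l, j) ∉ Dj σ m) : coeff j (tr m s) = 0 := by
  rw [tr, coeff_mk]
  exact if_neg h

variable [Fintype σ]

/-- the facts on the points of the right side -/
theorem factsY (g : ι → MvPolynomial σ k) (b : ι → ℕ) (c1 : k) (p : σ → k) (m : ℕ) (hm : m ≠ 0)
    {S : Type} [CommRing S] [Algebra k S]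
    (y : ((Kpt p).app ((lp0 g b c1 m hm).K.app (affY k σ (0 : QZ)))).F.obj S) :
    (∀ l, y.1.1.1.1 l = 0) ∧ (∀ l, coeff 0 (y.1.1.1.2.1 l) = 0) ∧
      (∀ l j, m < j → coeff j (y.1.1.1.2.1 l) = 0) ∧
        Cg m (MvPolynomial.aeval y.1.1.1.2.1 (MvPolynomial.C c1 * ∏ i, g i ^ b i)) (X ^ m) := by
  have hb : ∀ l, y.1.1.1.1 l = 0 := by
    intro l
    have h1 : MvPolynomial.aeval (fun l => y.1.1.1.1 l) (MvPolynomial.X l : MvPolynomial σ k) = 0 :=
      y.2 l
    rwa [MvPolynomial.aeval_X] at h1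
  refine ⟨hb, fun l => y.1.1.1.2.2 l 0 ?_, fun l j hj => y.1.1.1.2.2 l j ?_, ?_⟩
  · intro h
    have h1 : 1 ≤ 0 := h.1
    omega
  · intro h
    have h1 : j ≤ m := h.2
    omega
  · have h1 : ∀ j : Fin (m + 1), coeff (j : ℕ) ((lp0 g b c1 m hm).fser
        (fun l => C (y.1.1.1.1 l) + y.1.1.1.2.1 l)) - (if (j : ℕ) = m then (1 : S) else 0) = 0 :=
      y.1.1.2
    rw [eqn_iff, fser_eq] at h1
    have e : (fun l => C (y.1.1.1.1 l) + y.1.1.1.2.1 l) = y.1.1.1.2.1 := by
      funext l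
      rw [hb l, map_zero, zero_add]
    rwa [e] at h1

/-- **ZPT** -/
theorem zpt (h1 : ZcgStmt) (h2 : ZpbStmt) : ZptStmt := by
  intro k _ σ ι ι' _ _ _ R _ L χ f a c g b c1 p hA m hm
  obtain ⟨ψ, u, hψ, hli, hu, hF⟩ := hA (m + 1)
  have hF' : u * MvPolynomial.aeval ψ (MvPolynomial.C c * ∏ i, f i ^ a i) -
      (MvPolynomial.C c1 * ∏ i, g i ^ b i) ∈ Mx k σ (m + 1) := hF
  -- the domain
  have hY0 : FT ((lp0 g b c1 m hm).K.app (affY k σ (0 : QZ))).F :=
    (lp0 g b c1 m hm).K.app_FT (FT.affY (0 : QZ))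
  have hY : FT ((Kpt p).app ((lp0 g b c1 m hm).K.app (affY k σ (0 : QZ)))).F :=
    (Kpt p).app_FT hY0
  have hcr := fun (S : Type) [CommRing S] [Algebra k S] (δ : σ → S⟦X⟧)
      (hδ : ∀ l, coeff 0 (δ l) = 0) =>
    corr h1 hψ hu hF' (γ := fun l => C (algebraMap k S (p l)) + tr m (MvPolynomial.aeval δ (ψ l)))
      hδ (fun l => by
        have h3 := tr_cg (m := m) hδ (ψ l)
        rw [hψ l] at h3
        exact h3)
  symm
  refine χ.iso hY (OIso.ofBij (fun S _ _ y => ⟨((), ⟨fun l => tr m (MvPolynomial.aeval y.1.1.1.2.1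
    (ψ l)), fun l j hlj => tr_coeff hlj⟩), ?_⟩) ?_ ?_ ?_)
  · obtain ⟨-, hδ0, -, heq⟩ := factsY g b c1 p m hm y
    have h3 := (hcr S _ hδ0).2 heq
    rw [← fser_eq f a c m hm, ← eqn_iff] at h3
    exact h3
  · intro S S' _ _ _ _ φ c' y
    exact Subtype.ext (Prod.ext rfl (Subtype.ext (funext fun l => tr_tw φ c' _ (ψ l))))
  · intro S _ _
    constructor
    · intro y y' hyy
      obtain ⟨hb, hδ0, hδm, -⟩ := factsY g b c1 p m hm y
      obtain ⟨hb', hδ0', hδm', -⟩ := factsY g b c1 p m hm y'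
      have h3 : ∀ l, tr m (MvPolynomial.aeval y.1.1.1.2.1 (ψ l)) =
          tr m (MvPolynomial.aeval y'.1.1.1.2.1 (ψ l)) := fun l =>
        congrFun (congrArg Subtype.val (congrArg Prod.snd (congrArg Subtype.val hyy))) l
      obtain ⟨v, hv⟩ : ∃ v : σ → S⟦X⟧, v = fun l => tr m (MvPolynomial.aeval y.1.1.1.2.1 (ψ l)) :=
        ⟨_, rfl⟩
      have hv0 : ∀ l, coeff 0 (v l) = 0 := by
        intro l
        rw [hv]
        show coeff 0 (tr m (MvPolynomial.aeval y.1.1.1.2.1 (ψ l))) = 0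
        rw [tr, coeff_mk, if_neg (by omega)]
      have h4 := h2 k σ p ψ ⟨hψ, hli⟩ S m v hv0
      have hδ : y.1.1.1.2.1 = y'.1.1.1.2.1 := by
        refine h4.unique ⟨hδm, hδ0, fun l j hj => ?_⟩ ⟨hδm', hδ0', fun l j hj => ?_⟩
        · have h5 := tr_cg (m := m) hδ0 (ψ l) j hj
          rw [hψ l, map_add] at h5
          rw [hv, map_sub, ← h5, add_sub_cancel_left]
        · have h5 := tr_cg (m := m) hδ0' (ψ l) j hj
          rw [hψ l, map_add] at h5
          rw [hv, map_sub, ← h5, add_sub_cancel_left]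
          exact congrArg (coeff j) (h3 l).symm
      have hbb : y.1.1.1.1 = y'.1.1.1.1 := funext fun l => (hb l).trans (hb' l).symm
      exact Subtype.ext (Prod.ext (Subtype.ext (Prod.ext hbb (Subtype.ext hδ))) rfl)
    · intro x
      have hx0 : ∀ l, coeff 0 (x.1.2.1 l) = 0 := fun l => x.1.2.2 l 0 (fun h => by
        have h3 : 1 ≤ 0 := h.1
        omega)
      obtain ⟨δ, ⟨hδm, hδ0, hδv⟩, -⟩ := h2 k σ p ψ ⟨hψ, hli⟩ S m x.1.2.1 hx0
      have htr : ∀ l, tr m (MvPolynomial.aeval δ (ψ l)) = x.1.2.1 l := by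
        intro l
        ext j
        rw [tr, coeff_mk]
        split_ifs with h3
        · rw [← hδv l j h3.2, map_sub, coeff_C, if_neg (by omega), sub_zero]
        · exact (x.1.2.2 l j h3).symm
      have heq : Cg m (MvPolynomial.aeval δ (MvPolynomial.C c1 * ∏ i, g i ^ b i)) (X ^ m) := by
        refine (hcr S δ hδ0).1 ?_
        have h3 : ∀ j : Fin (m + 1), coeff (j : ℕ) ((lp0 f a c m hm).fser
            (fun l => C (algebraMap k S (p l)) + x.1.2.1 l)) -
              (if (j : ℕ) = m then (1 : S) else 0) = 0 := x.2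
        rw [eqn_iff, fser_eq] at h3
        have e : (fun l => C (algebraMap k S (p l)) + tr m (MvPolynomial.aeval δ (ψ l))) =
            fun l => C (algebraMap k S (p l)) + x.1.2.1 l := by
          funext l
          rw [htr l]
        rw [e]
        exact h3
      rw [← fser_eq g b c1 m hm, ← eqn_iff] at heq
      have e0 : (fun l => C ((0 : σ → S) l) + δ l) = δ := by
        funext l
        rw [Pi.zero_apply, map_zero, zero_add]
      refine ⟨⟨(⟨((0 : σ → S), ⟨δ, fun l j hlj => ?_⟩), ?_⟩, ()), ?_⟩, ?_⟩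
      · rcases Nat.lt_or_ge m j with h3 | h3
        · exact hδm l j h3
        · have h4 : j = 0 := by
            by_contra h5
            exact hlj ⟨by show 1 ≤ j; omega, h3⟩
          rw [h4]
          exact hδ0 l
      · intro j
        show coeff (j : ℕ) ((lp0 g b c1 m hm).fser
            (fun l => C ((0 : σ → S) l) + δ l)) - (if (j : ℕ) = m then (1 : S) else 0) = 0
        rw [e0]
        exact heq j
      · intro l
        show MvPolynomial.aeval (fun l => (0 : σ → S) l) (MvPolynomial.X l : MvPolynomial σ k) = 0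
        rw [MvPolynomial.aeval_X]
        rfl
      · exact Subtype.ext (Prod.ext rfl (Subtype.ext (funext fun l => htr l)))
  · intro S _ _ y l
    show MvPolynomial.aeval (fun l => algebraMap k S (p l)) (MvPolynomial.X l : MvPolynomial σ k) =
      algebraMap k S (p l)
    rw [MvPolynomial.aeval_X]

end jets

end Pool.Agent.ISO.Z.H2
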